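import Pool.Agent.K1H5.FD.Stm3
import Pool.Agent.K1H89.FD.Uni

/-! # Project FD: `S_PF`, vanishing of the `p`-curvature and gauge transformations -/

set_option autoImplicit false

namespace Pool.Agent.K1H99.FD

open Polynomial Matrix Pool.Agent.K1H5.FD

section

variable {R ι : Type} [CommRing R] [IsDomain R] [Fintype ι]

omit [IsDomain R] in
theorem der_mulVec (P : Matrix ι ι R[X]) (V : ι → R[X]) (i : ι) :
    derivative ((P *ᵥ V) i) =
      (P.map (fun f => derivative f) *ᵥ V) i + (P *ᵥ fun j => derivative (V j)) i := by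
  simp only [mulVec, dotProduct, derivative_sum, derivative_mul, Matrix.map_apply,
    Finset.sum_add_distrib]

omit [IsDomain R] in
theorem mul_der_pow (b : R[X]) (n : ℕ) :
    b * derivative (b ^ n) = (n : R[X]) * b ^ n * derivative b := by
  rw [derivative_pow]
  rcases n with _ | n
  · simp
  · rw [Nat.add_sub_cancel, pow_succ]
    simp only [map_natCast]
    ring

theorem gauge (h b g : R[X]) (A B P : Matrix ι ι R[X]) (hg : g ≠ 0)
    (hrel : ∀ i j, h * b * (g * derivative (P i j) - derivative g * P i j) + b * g * (A * P) i j =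
      h * g * (P * B) i j) (w : ι → R[X]) (n : ℕ) :
    ∀ i, g * b ^ n * iter h A (P *ᵥ w) n i = h ^ n * (P *ᵥ iter b B (g • w) n) i := by
  -- the relation applied to a vector
  have hrel' : ∀ (V : ι → R[X]) (i : ι),
      h * b * (g * (P.map (fun f => derivative f) *ᵥ V) i - derivative g * (P *ᵥ V) i) +
        b * g * (A *ᵥ (P *ᵥ V)) i = h * g * (P *ᵥ (B *ᵥ V)) i := by
    intro V i
    rw [mulVec_mulVec, mulVec_mulVec]
    simp only [mulVec, dotProduct, Matrix.map_apply]
    rw [Finset.mul_sum, Finset.mul_sum, ← Finset.sum_sub_distrib, Finset.mul_sum, Finset.mul_sum,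
      ← Finset.sum_add_distrib, Finset.mul_sum]
    refine Finset.sum_congr rfl fun j _ => ?_
    linear_combination (V j) * hrel i j
  induction n with
  | zero =>
    intro i
    change g * b ^ 0 * (P *ᵥ w) i = h ^ 0 * (P *ᵥ (g • w)) i
    rw [mulVec_smul]
    simp
  | succ n ih =>
    intro i
    set U := iter h A (P *ᵥ w) n with hU
    set V := iter b B (g • w) n with hV
    have e1 : iter h A (P *ᵥ w) (n + 1) i =
      h * derivative (U i) - (n : R[X]) * derivative h * U i + (A *ᵥ U) i := rfl
    have e2 : (P *ᵥ iter b B (g • w) (n + 1)) i =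
        b * (P *ᵥ fun j => derivative (V j)) i - (n : R[X]) * derivative b * (P *ᵥ V) i +
          (P *ᵥ (B *ᵥ V)) i := by
      have : iter b B (g • w) (n + 1) = b • (fun j => derivative (V j)) -
          ((n : R[X]) * derivative b) • V + B *ᵥ V := by
        funext j
        rfl
      rw [this, mulVec_add, mulVec_sub, mulVec_smul, mulVec_smul]
      rfl
    have e3 : g * b ^ n * (A *ᵥ U) i = h ^ n * (A *ᵥ (P *ᵥ V)) i := by
      have h1 : (g * b ^ n) • U = h ^ n • (P *ᵥ V) := by
        funext j
        exact ih j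
      have h2 : A *ᵥ ((g * b ^ n) • U) = A *ᵥ (h ^ n • (P *ᵥ V)) := by rw [h1]
      rw [mulVec_smul, mulVec_smul] at h2
      exact congrFun h2 i
    have e4 := congrArg (fun f => derivative f) (ih i)
    simp only [derivative_mul, der_mulVec] at e4
    have e5 := mul_der_pow b n
    have e6 := mul_der_pow h n
    have e7 := hrel' V i
    have e8 := ih i
    rw [e1, e2]
    apply mul_left_cancel₀ hg
    linear_combination (h * b * g) * e4 - (g * h * g * U i) * e5 + (b * g * (P *ᵥ V) i) * e6 +
      h ^ n * e7 + (b * g) * e3 + (- (n : R[X]) * derivative h * b * g - derivative g * h * b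
        - (n : R[X]) * derivative b * h * g) * e8

end

theorem t_PF : S_PF := by
  intro κ _ p _ hp r h b g A B P hh hb hg hP hrel hA w i
  have h1 := gauge h b g A B P hg hrel w p
  have h2 : P *ᵥ iter b B (g • w) p = 0 := by
    funext j
    have h3 := h1 j
    rw [hA, mul_zero] at h3
    exact (mul_eq_zero.1 h3.symm).resolve_left (pow_ne_zero _ hh)
  have h4 := Matrix.eq_zero_of_mulVec_eq_zero hP h2
  rw [Pool.Agent.K1H89.FD.iter_smul_char b B p hp g w] at h4
  have h5 := congrFun h4 i
  simp only [Pi.smul_apply, smul_eq_mul, Pi.zero_apply] at h5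
  exact (mul_eq_zero.1 h5).resolve_left hg

end Pool.Agent.K1H99.FD
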